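import Pool.Agent.Y451.AM.Stm
import Pool.Agent.Y972.FM.Apx

set_option autoImplicit false

/-!
# Project AM: `S_PRD` and `S_APX`, the product space over a countable group
-/

open MeasureTheory

noncomputable section

namespace Pool.Agent.Y972.AM

open Pool.Agent.Y451.FM (dg)
open Pool.Agent.Y972.FM (measurable_dg dg_mono)
open Pool.Agent.Y451.AM

theorem measurable_sh {Γ : Type} [Group Γ] (g : Γ) : Measurable (sh g : Om Γ → Om Γ) :=
  measurable_pi_lambda _ fun h => measurable_pi_apply (h * g)

theorem mp_sh {Γ : Type} [Group Γ] [Countable Γ] (g : Γ) :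
    MeasurePreserving (sh g) (PP Γ) (PP Γ) := by
  refine ⟨measurable_sh g, ?_⟩
  refine Measure.eq_infinitePi _ fun s t ht => ?_
  rw [Measure.map_apply (measurable_sh g)
    (MeasurableSet.pi (Finset.countable_toSet s) fun i _ => ht i)]
  have h1 : (sh g : Om Γ → Om Γ) ⁻¹' (Set.pi (s : Set Γ) t) =
      Set.pi ((s.map (mulRightEmbedding g) : Finset Γ) : Set Γ)
        (fun h => t (h * g⁻¹)) := by
    ext b
    simp only [Set.mem_preimage, Set.mem_pi, Finset.mem_coe, Finset.mem_map,
      mulRightEmbedding_apply, sh]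
    constructor
    · rintro h v ⟨w, hw, rfl⟩
      rw [mul_inv_cancel_right]
      exact h w hw
    · intro h w hw
      have := h (w * g) ⟨w, hw, rfl⟩
      rwa [mul_inv_cancel_right] at this
  rw [h1]
  unfold PP
  rw [Measure.infinitePi_pi _ (fun i _ => ht _), Finset.prod_map]
  refine Finset.prod_congr rfl fun i _ => ?_
  simp only [mulRightEmbedding_apply, mul_inv_cancel_right]

theorem indep (Γ : Type) [Countable Γ] (r m : ℕ) (e : Fin m → Γ) (he : Function.Injective e)
    (c : Fin m → Fin (2 ^ r + 1)) :
    (PP Γ).real {b | ∀ i, dg r (b (e i)) = c i} =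
      ∏ i, (volume : Measure unitInterval).real {x | dg r x = c i} := by
  have h1 : {b : Om Γ | ∀ i, dg r (b (e i)) = c i} =
      Set.pi (((Finset.univ : Finset (Fin m)).map ⟨e, he⟩ : Finset Γ) : Set Γ)
        (fun v => {x | ∀ j, e j = v → dg r x = c j}) := by
    ext b
    simp only [Set.mem_ofPred_eq, Set.mem_pi, Finset.mem_coe, Finset.mem_map, Finset.mem_univ,
      true_and, Function.Embedding.coeFn_mk]
    constructor
    · rintro h v ⟨i, rfl⟩ j hj
      rw [← hj]
      exact h j
    · intro h i
      exact h (e i) ⟨i, rfl⟩ i rfl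
  have hm : ∀ v : Γ, MeasurableSet {x : unitInterval | ∀ j, e j = v → dg r x = c j} := by
    intro v
    have : {x : unitInterval | ∀ j, e j = v → dg r x = c j} =
        ⋂ j : Fin m, {x | e j = v → dg r x = c j} := by
      ext x
      simp only [Set.mem_ofPred_eq, Set.mem_iInter]
    rw [this]
    refine MeasurableSet.iInter fun j => ?_
    by_cases hj : e j = v
    · have : {x : unitInterval | e j = v → dg r x = c j} = dg r ⁻¹' {c j} := by
        ext x
        simp [hj]
      rw [this]
      exact measurable_dg r (measurableSet_singleton _)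
    · have : {x : unitInterval | e j = v → dg r x = c j} = Set.univ := by
        ext x
        simp [hj]
      rw [this]
      exact MeasurableSet.univ
  rw [h1, Measure.real]
  unfold PP
  rw [Measure.infinitePi_pi _ (fun i _ => hm _), Finset.prod_map, ENNReal.toReal_prod]
  refine Finset.prod_congr rfl fun i _ => ?_
  rw [Measure.real]
  congr 2
  ext x
  simp only [Function.Embedding.coeFn_mk, Set.mem_ofPred_eq]
  constructor
  · intro h
    exact h i rfl
  · intro h j hj
    rw [he hj]
    exact h

/-- PRD: independence and stationarity. -/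
theorem prd : Pool.Agent.Y451.AM.S_PRD :=
  ⟨measurable_dg, fun _ _ _ g => mp_sh g, fun Γ _ _ r m e he c => indep Γ r m e he c⟩

/-- `s` depends only on the first `r` digits of the labels in `U` -/
def IsLev {Γ : Type} (r : ℕ) (U : Finset Γ) (s : Set (Om Γ)) : Prop :=
  ∀ b b' : Om Γ, (∀ v ∈ U, dg r (b v) = dg r (b' v)) → b ∈ s → b' ∈ s

/-- the algebra of all these sets -/
def Alg (Γ : Type) : Set (Set (Om Γ)) := {s | ∃ r U, IsLev r U s}

theorem IsLev.mono {Γ : Type} {r r' : ℕ} (h : r ≤ r') {U U' : Finset Γ} (hU : U ⊆ U')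
    {s : Set (Om Γ)} (hs : IsLev r U s) :
    IsLev r' U' s := fun b b' hb => hs b b' fun v hv => dg_mono h (hb v (hU hv))

theorem alg (Γ : Type) : IsSetAlgebra (Alg Γ) where
  empty_mem := ⟨0, ∅, fun b b' _ h => h.elim⟩
  compl_mem := by
    rintro s ⟨r, U, hr⟩
    exact ⟨r, U, fun b b' hb h h' => h (hr b' b (fun v hv => (hb v hv).symm) h')⟩
  union_mem := by
    classical
    rintro s t ⟨r, U, hr⟩ ⟨r', U', hr'⟩
    refine ⟨max r r', U ∪ U', fun b b' hb h => ?_⟩
    rcases h with h | h
    · exact Or.inl ((hr.mono (le_max_left _ _) Finset.subset_union_left) b b' hb h)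
    · exact Or.inr ((hr'.mono (le_max_right _ _) Finset.subset_union_right) b b' hb h)

theorem lev_meas {Γ : Type} {r : ℕ} {U : Finset Γ} {s : Set (Om Γ)} (hs : IsLev r U s) :
    MeasurableSet s := by
  let D : Om Γ → ({v : Γ // v ∈ U} → Fin (2 ^ r + 1)) := fun b v => dg r (b v.1)
  have hD : Measurable D :=
    measurable_pi_lambda _ fun v => (measurable_dg r).comp (measurable_pi_apply v.1)
  have h1 : s = D ⁻¹' (D '' s) := by
    refine Set.Subset.antisymm (Set.subset_preimage_image _ _) ?_
    rintro b' ⟨b, hb, hbb⟩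
    exact hs b b' (fun v hv => congrFun hbb ⟨v, hv⟩) hb
  rw [h1]
  exact hD (Set.toFinite _).measurableSet

theorem gen (Γ : Type) :
    (MeasurableSpace.pi : MeasurableSpace (Om Γ)) = MeasurableSpace.generateFrom (Alg Γ) := by
  apply le_antisymm
  · refine iSup_le fun v => ?_
    rw [← measurable_iff_comap_le]
    have h1 : @Measurable _ _ (MeasurableSpace.generateFrom (Alg Γ)) _
        (fun b : Om Γ => ((b v : unitInterval) : ℝ)) := by
      refine @measurable_of_tendsto_metrizable _ _ (MeasurableSpace.generateFrom (Alg Γ)) _ _ _ _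
        (fun r b => ((dg r (b v)).val : ℝ) / 2 ^ r) _ ?_ ?_
      · intro r t _
        refine MeasurableSpace.measurableSet_generateFrom ⟨r, {v}, ?_⟩
        intro b b' hb h
        have := hb v (Finset.mem_singleton_self v)
        simp only [Set.mem_preimage] at h ⊢
        rwa [← this]
      · rw [tendsto_pi_nhds]
        intro b
        have h2 : Filter.Tendsto (fun r : ℕ => ((1 : ℝ) / 2) ^ r) Filter.atTop
            (nhds 0) :=
          tendsto_pow_atTop_nhds_zero_of_lt_one (by norm_num) (by norm_num)
        have h3 : Filter.Tendsto (fun r : ℕ => ((b v : unitInterval) : ℝ) -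
            ((1 : ℝ) / 2) ^ r) Filter.atTop (nhds ((b v : unitInterval) : ℝ)) := by
          simpa using h2.const_sub ((b v : unitInterval) : ℝ)
        refine tendsto_of_tendsto_of_tendsto_of_le_of_le h3 tendsto_const_nhds ?_ ?_
        · intro r
          simp only [dg]
          have hp : (0 : ℝ) < 2 ^ r := by positivity
          rw [le_div_iff₀ hp]
          have := Nat.lt_floor_add_one (((b v : unitInterval) : ℝ) * 2 ^ r)
          have h4 : ((1 : ℝ) / 2) ^ r * 2 ^ r = 1 := by
            rw [← mul_pow]; norm_num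
          rw [sub_mul, h4]
          linarith
        · intro r
          simp only [dg]
          have hp : (0 : ℝ) < 2 ^ r := by positivity
          rw [div_le_iff₀ hp]
          exact Nat.floor_le (mul_nonneg (b v).2.1 hp.le)
    exact Measurable.subtype_mk h1
  · refine MeasurableSpace.generateFrom_le ?_
    rintro s ⟨r, U, hr⟩
    exact lev_meas hr

/-- APX: measurable functions are approximated by functions of finitely many digits. -/
theorem apx : Pool.Agent.Y451.AM.S_APX := by
  classical
  intro Γ _ _ k F hF η hη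
  have hd : (PP Γ).MeasureDense (Alg Γ) :=
    Measure.MeasureDense.of_generateFrom_isSetAlgebra_finite (PP Γ) (alg Γ) (gen Γ)
  have hη' : 0 < η / (k + 1) := by positivity
  have h1 : ∀ i : Fin k, ∃ t ∈ Alg Γ,
      (PP Γ) (symmDiff (F ⁻¹' {i}) t) < ENNReal.ofReal (η / (k + 1)) := fun i =>
    hd.approx _ (hF (measurableSet_singleton i)) (measure_ne_top _ _) _ hη'
  choose t htA ht using h1
  choose rr UU hrr using htA
  let r := Finset.univ.sup rr
  let U : Finset Γ := Finset.univ.biUnion UU
  have hlev : ∀ i, IsLev r U (t i) := fun i =>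
    (hrr i).mono (Finset.le_sup (f := rr) (Finset.mem_univ i))
      (Finset.subset_biUnion_of_mem UU (Finset.mem_univ i))
  let i₀ : Fin k := F (fun _ => 0)
  let G : (Fin k → Prop) → Fin k := fun q => if h : ∃ i, q i then h.choose else i₀
  have hG : ∀ q : Fin k → Prop, (∃ i, q i) → q (G q) := by
    intro q h
    simp only [G, dif_pos h]
    exact h.choose_spec
  let Q : (Γ → Fin (2 ^ r + 1)) → Fin k → Prop := fun c i =>
    ∃ b ∈ t i, ∀ v ∈ U, dg r (b v) = c v
  refine ⟨r, U, fun c => G (Q c), ?_, ?_⟩
  · intro c c' h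
    have : Q c = Q c' := by
      funext i
      apply propext
      constructor
      · rintro ⟨b, hb, h'⟩
        exact ⟨b, hb, fun v hv => (h' v hv).trans (h v hv)⟩
      · rintro ⟨b, hb, h'⟩
        exact ⟨b, hb, fun v hv => (h' v hv).trans (h v hv).symm⟩
    show G (Q c) = G (Q c')
    rw [this]
  · have hsub : {b | F b ≠ G (Q fun v => dg r (b v))} ⊆
        ⋃ i : Fin k, symmDiff (F ⁻¹' {i}) (t i) := by
      intro b hb
      by_contra hcon
      simp only [Set.mem_iUnion, not_exists] at hcon
      have hiff : ∀ i, F b = i ↔ b ∈ t i := by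
        intro i
        have := hcon i
        rw [Set.mem_symmDiff] at this
        push Not at this
        exact ⟨fun h => this.1 h, fun h => this.2 h⟩
      apply hb
      have hex : ∃ i, Q (fun v => dg r (b v)) i :=
        ⟨F b, b, (hiff _).1 rfl, fun v _ => rfl⟩
      obtain ⟨b', hb', h'⟩ := hG _ hex
      exact (hiff _).2 (hlev _ b' b h' hb')
    calc (PP Γ).real {b | F b ≠ G (Q fun v => dg r (b v))}
        ≤ (PP Γ).real (⋃ i : Fin k, symmDiff (F ⁻¹' {i}) (t i)) :=
          measureReal_mono hsub
      _ ≤ ∑ i : Fin k, (PP Γ).real (symmDiff (F ⁻¹' {i}) (t i)) :=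
          measureReal_iUnion_fintype_le _
      _ ≤ ∑ _i : Fin k, η / (k + 1) := by
          refine Finset.sum_le_sum fun i _ => ?_
          have := (ht i).le
          rw [Measure.real]
          exact ENNReal.toReal_le_of_le_ofReal hη'.le this
      _ ≤ η := by
          rw [Finset.sum_const, Finset.card_univ, Fintype.card_fin, nsmul_eq_mul]
          have hk : (0 : ℝ) < k + 1 := by positivity
          rw [mul_div_assoc', div_le_iff₀ hk]
          nlinarith

end Pool.Agent.Y972.AM

end
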